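import Pool.Agent.H5.OR.All
import Pool.Agent.H5.OR.Targets3

/-!
# MP_e1fd52_al, board ors_modules, row KS
-/

set_option autoImplicit false

open scoped Classical

namespace Pool.Agent.H19.ORS

open ORg

theorem ks_zinj {G : Type} [Group G] {x : G} (hx : ∀ k : ℤ, k ≠ 0 → x ^ k ≠ 1) :
    Function.Injective (zpowersHom G x) := by
  rw [injective_iff_map_eq_one]
  intro k hk
  by_contra h
  exact hx (Multiplicative.toAdd k) (fun h' => h (by
    rw [← ofAdd_toAdd k, h']
    rfl)) hk

theorem pf_KS (KH : T_KH) (KB : T_KB) : T_KS := by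
  intro k p q hk hp hq
  obtain ⟨iX, iB, hX, hB, hPO⟩ := KB k p q
  have h1 : Function.Injective (zpowersHom (Multiplicative ℤ) (Multiplicative.ofAdd (k : ℤ))) := by
    refine ks_zinj fun j hj h => ?_
    rw [← ofAdd_zsmul] at h
    have h2 : j • (k : ℤ) = 0 := h
    rw [smul_eq_mul] at h2
    rcases mul_eq_zero.mp h2 with h3 | h3
    · exact hj h3
    · have : (k : ℤ) ≠ 0 := by exact_mod_cast hk.ne'
      exact this h3
  have h2 : Function.Injective (zpowersHom (BS p q) (bsT p q)) := ks_zinj (All.BW.1 p q)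
  obtain ⟨hiX, hiB⟩ := All.AI _ _ _ _ _ _ _ _ hPO h1 h2
  have hpow : iB (bsT p q) = (kg true : KP k p q) ^ k := by
    have h3 := hPO.comm (Multiplicative.ofAdd 1)
    simp only [zpowersHom_apply, toAdd_ofAdd, zpow_one] at h3
    rw [← h3, ← hX, ← map_pow]
    congr 1
    rw [← ofAdd_nsmul]
    simp
  have hInfT : ∀ n : ℤ, n ≠ 0 → (kg true : KP k p q) ^ n ≠ 1 := by
    intro n hn h
    rw [← hX, ← map_zpow, ← ofAdd_zsmul, map_eq_one_iff iX hiX] at h
    have h3 : n • (1 : ℤ) = 0 := h
    simp at h3
    exact hn h3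
  have hInfF : ∀ n : ℤ, n ≠ 0 → (kg false : KP k p q) ^ n ≠ 1 := by
    intro n hn h
    rw [← hB, ← map_zpow, map_eq_one_iff iB hiB] at h
    exact (All.BK p q hp hq).2 n hn h
  refine ⟨?_, ?_⟩
  · set K : Subgroup (KP k p q) := iB.range with hK
    have hKK : KK K :=
      Pool.Agent.H23.OR.KA.kk_equiv (MonoidHom.ofInjective hiB) (All.BK p q hp hq).1
    refine ⟨K, {kg true} ∪ K, hKK, ?_, ?_⟩
    · rw [eq_top_iff, ← PresentedGroup.closure_range_of]
      refine Subgroup.closure_mono ?_
      rintro _ ⟨o, rfl⟩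
      rcases o with b | b
      · cases b with
        | true => exact Or.inl rfl
        | false => exact Or.inr ⟨bsA p q, hB⟩
      · exact b.elim
    · rintro s (hs | hs)
      · rw [Set.mem_singleton_iff] at hs
        rw [hs]
        refine Relation.ReflTransGen.single ⟨?_, ?_⟩
        · exact Pool.Agent.H23.OR.KA.kk_equiv
            (K.equivMapOfInjective _ (MulAut.conj (kg true)).injective) hKK
        · intro h
          have h3 : iB (bsT p q) ∈ K ⊓ K.map (MulAut.conj (kg true)).toMonoidHom := by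
            refine ⟨⟨bsT p q, rfl⟩, ⟨iB (bsT p q), ⟨bsT p q, rfl⟩, ?_⟩⟩
            show kg true * iB (bsT p q) * (kg true)⁻¹ = iB (bsT p q)
            rw [hpow]
            group
          rw [h, Subgroup.mem_bot] at h3
          rw [hpow] at h3
          have hk' : (k : ℤ) ≠ 0 := by exact_mod_cast hk.ne'
          exact hInfT k hk' (by rw [zpow_natCast]; exact h3)
      · have h : K.map (MulAut.conj s).toMonoidHom = K := by
          ext x
          constructor
          · rintro ⟨y, hy, rfl⟩
            exact K.mul_mem (K.mul_mem hs hy) (K.inv_mem hs)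
          · intro hx
            refine ⟨s⁻¹ * x * s, K.mul_mem (K.mul_mem (K.inv_mem hs) hx) hs, ?_⟩
            show s * (s⁻¹ * x * s) * s⁻¹ = x
            group
        rw [h]
  · intro i
    cases i with
    | true => exact hInfT
    | false => exact hInfF

end Pool.Agent.H19.ORS
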