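import Pool.Agent.H5.OR.All
import Pool.Agent.H5.OR.Targets3

/-!
# MP_e1fd52_al, board ors_modules, row M6
-/

set_option autoImplicit false

open scoped Classical

namespace Pool.Agent.H19.ORS

open ORg

/-- a free group on at most one letter is commutative -/
theorem m6_comm {Y : Type} (hY : Subsingleton Y) (z z' : FreeGroup Y) : z * z' = z' * z := by
  have h1 : ∀ (u : FreeGroup Y) (y : Y), Commute u (FreeGroup.of y) := by
    intro u y
    induction u using FreeGroup.induction_on with
    | C1 => exact Commute.one_left _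
    | of x =>
      have : x = y := Subsingleton.elim x y
      rw [this]
    | inv_of x h => exact h.inv_left
    | mul x y hx hy => exact hx.mul_left hy
  have h2 : Commute z z' := by
    induction z' using FreeGroup.induction_on with
    | C1 => exact Commute.one_right _
    | of x => exact h1 z x
    | inv_of x h => exact h.inv_right
    | mul x y hx hy => exact hx.mul_right hy
  exact h2

/-- different generators of a free group do not commute -/
theorem m6_gen {X : Type} (x y : X) (h : x ≠ y) :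
    FreeGroup.of x * FreeGroup.of y ≠ FreeGroup.of y * FreeGroup.of x := by
  intro h1
  let f : FreeGroup X →* Equiv.Perm (Fin 3) :=
    FreeGroup.lift fun z => if z = x then Equiv.swap 0 1 else Equiv.swap 1 2
  have h2 := congrArg f h1
  have hx : f (FreeGroup.of x) = Equiv.swap 0 1 := by
    simp [f]
  have hy : f (FreeGroup.of y) = Equiv.swap 1 2 := by
    simp [f, h.symm]
  rw [map_mul, map_mul, hx, hy] at h2
  exact absurd h2 (by decide)

theorem m6_ne_one {X : Type} {w : FreeGroup X} (h : Root w) : w ≠ 1 := by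
  intro h1
  have h2 := h 1 0 (by rw [h1]; simp)
  omega

theorem m6_fl {X1 X2 : Type} : Function.Injective (fl : FreeGroup X1 →* FreeGroup (X1 ⊕ X2)) :=
  FreeGroup.map_injective Sum.inl_injective

theorem pf_M6 : T_M6 := by
  intro I X Z P G _ _ w a iF iP S r b I' X' Z' P' G' _ _ w' a' iF' iP' S' r' b' h h' φ hP i j
    hnt p hp hF
  have hfin := h.hy.fin i
  have hwh : Wh (w i) := by
    rcases h.hy.lf i with h1 | h1
    · exact h1.1
    · exact absurd hnt (not_nontrivial_iff_subsingleton.mpr h1)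
  let e := MonoidHom.ofInjective (h'.injF j)
  let θ : FreeGroup (X i) →* G' :=
    (MulAut.conj p).toMonoidHom.comp (φ.toMonoidHom.comp ((iF i).comp fl))
  let ψ : FreeGroup (X i) →* FreeGroup (X' j ⊕ Z' j) := e.symm.toMonoidHom.comp
    (θ.codRestrict (iF' j).range hF)
  have hψ : ∀ y, iF' j (ψ y) = p * φ (iF i (fl y)) * p⁻¹ := by
    intro y
    have h1 : e (ψ y) = ⟨p * φ (iF i (fl y)) * p⁻¹, hF y⟩ := e.apply_symm_apply _
    have h2 := congrArg Subtype.val h1
    rw [MonoidHom.ofInjective_apply] at h2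
    exact h2
  have hinj : Function.Injective ψ := by
    intro y z hyz
    have h1 : p * φ (iF i (fl y)) * p⁻¹ = p * φ (iF i (fl z)) * p⁻¹ := by
      rw [← hψ, ← hψ, hyz]
    have h2 : φ (iF i (fl y)) = φ (iF i (fl z)) := mul_left_cancel (mul_right_cancel h1)
    exact m6_fl (h.injF i (φ.injective h2))
  obtain ⟨S0, r0, b0, hAm, hfree⟩ := All.AP (X' j) (Z' j)
  have hwr : ψ (w i) • r0 = r0 := by
    have h1 : p * φ (iF i (fl (w i))) * p⁻¹ ∈ iP'.range := by
      refine mul_mem (mul_mem hp ?_) (inv_mem hp)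
      rw [h.eq i, ← hP]
      exact ⟨a i, rfl⟩
    obtain ⟨c, hc⟩ := h1
    obtain ⟨k, hk, _⟩ := h'.inter j (ψ (w i)) c (by rw [hψ, hc])
    rw [hAm.stA, hk]
    exact ⟨w' j ^ k, by rw [map_zpow]⟩
  have hLS := All.LS (X i) (w i) (S0.comap ψ) (h.hy.root i) hwh ⟨r0, hwr⟩ (by
    intro u v huv
    refine ⟨1, fun g hg1 hg2 => ?_⟩
    have h1 : ψ g = 1 := by
      by_contra hne
      have h2 : u = v := hfree (ψ g) hne u v hg1 hg2
      have h3 : S0.T.Adj u v := huv
      exact h3.ne h2
    have h2 : g = 1 := hinj (by rw [h1, map_one])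
    rw [h2]
    simp)
  obtain ⟨v, hv⟩ := hLS
  have hw1 : ψ (w i) ≠ 1 := by
    intro h1
    exact m6_ne_one (h.hy.root i) (hinj (by rw [h1, map_one]))
  have hvr : r0 = v := hfree (ψ (w i)) hw1 r0 v hwr (hv (w i))
  have hfix : ∀ y, ∃ z : FreeGroup (X' j), fl z = ψ y := by
    intro y
    have h1 : ψ y • r0 = r0 := by
      rw [hvr]
      exact hv y
    obtain ⟨z, hz⟩ := (hAm.stA _).1 h1
    exact ⟨z, hz⟩
  refine ⟨?_, ?_⟩
  · by_contra hcon
    rw [not_nontrivial_iff_subsingleton] at hcon
    obtain ⟨x, y, hxy⟩ := exists_pair_ne (X i)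
    obtain ⟨z1, hz1⟩ := hfix (FreeGroup.of x)
    obtain ⟨z2, hz2⟩ := hfix (FreeGroup.of y)
    apply m6_gen x y hxy
    apply hinj
    rw [map_mul, map_mul, ← hz1, ← hz2, ← map_mul, ← map_mul, m6_comm hcon]
  · intro y
    obtain ⟨z, hz⟩ := hfix y
    refine ⟨z, ?_⟩
    rw [MonoidHom.comp_apply, ← hψ, hz]

end Pool.Agent.H19.ORS
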