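import Pool.Agent.H5.OR.Targets3

/-!
# MP_e1fd52_al, board ors_modules, row MP
-/

set_option autoImplicit false

open scoped Classical

namespace Pool.Agent.H19.ORS

open ORg

theorem mp_inl {I Y : Type} {X : I → Type} (w : ∀ i, FreeGroup (X i)) (i : I) :
    subW (Y := Y) w (FreeGroup.of (Sum.inl i)) =
      FreeGroup.map (fun x => Sum.inl ⟨i, x⟩) (w i) := by
  simp [subW]

theorem mp_inr {I Y : Type} {X : I → Type} (w : ∀ i, FreeGroup (X i)) (y : Y) :
    subW w (FreeGroup.of (Sum.inr y)) = FreeGroup.of (Sum.inr y) := by
  simp [subW]

theorem pf_MP : T_MP := by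
  intro I Y X w R
  have hmk : ∀ r ∈ R, PresentedGroup.mk (subW w '' R) (subW w r) = 1 := by
    intro r hr
    exact PresentedGroup.one_of_mem (Set.mem_image_of_mem _ hr)
  let iF : ∀ i, FreeGroup (X i) →* PresentedGroup (subW w '' R) := fun i =>
    (PresentedGroup.mk (subW w '' R)).comp (FreeGroup.map (fun x => Sum.inl ⟨i, x⟩))
  let iP : PresentedGroup R →* PresentedGroup (subW w '' R) :=
    PresentedGroup.toGroup (f := fun z => PresentedGroup.mk (subW w '' R)
      (subW w (FreeGroup.of z))) (by
        intro r hr
        have h : FreeGroup.lift (fun z => PresentedGroup.mk (subW w '' R)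
            (subW w (FreeGroup.of z))) = (PresentedGroup.mk (subW w '' R)).comp (subW w) := by
          ext z
          simp
        rw [h]
        exact hmk r hr)
  have hiP : ∀ z, iP (PresentedGroup.of z) = PresentedGroup.mk (subW w '' R)
      (subW w (FreeGroup.of z)) := fun z => PresentedGroup.toGroup.of _
  refine ⟨iF, iP, ?_, ?_, ?_⟩
  · intro i h
    induction h using Multiplicative.rec with
    | _ n =>
      simp only [zpowersHom_apply, toAdd_ofAdd, map_zpow, hiP, mp_inl]
      rfl
  · intro K _ u v huv
    have h1 : ∀ i, u (PresentedGroup.of (Sum.inl i)) = v i (w i) := by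
      intro i
      have := huv i (Multiplicative.ofAdd 1)
      simpa using this
    let f : (Σ i, X i) ⊕ Y → K := fun z => match z with
      | Sum.inl x => v x.1 (FreeGroup.of x.2)
      | Sum.inr y => u (PresentedGroup.of (Sum.inr y))
    have hfl : ∀ i, (FreeGroup.lift f).comp (FreeGroup.map (fun x => Sum.inl ⟨i, x⟩)) = v i := by
      intro i
      ext x
      simp [f]
    have hfs : (FreeGroup.lift f).comp (subW w) = u.comp (PresentedGroup.mk R) := by
      ext z
      cases z with
      | inl i =>
        simp only [MonoidHom.comp_apply, mp_inl]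
        have := DFunLike.congr_fun (hfl i) (w i)
        simp only [MonoidHom.comp_apply] at this
        rw [this, ← h1]
        rfl
      | inr y =>
        simp only [MonoidHom.comp_apply, mp_inr, FreeGroup.lift_apply_of]
        rfl
    have hrel : ∀ r ∈ subW w '' R, FreeGroup.lift f r = 1 := by
      rintro _ ⟨r, hr, rfl⟩
      have := DFunLike.congr_fun hfs r
      simp only [MonoidHom.comp_apply] at this
      rw [this]
      have h2 : PresentedGroup.mk R r = 1 := PresentedGroup.one_of_mem hr
      rw [h2, map_one]
    refine ⟨PresentedGroup.toGroup hrel, ?_, ?_⟩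
    · intro x
      have : (PresentedGroup.toGroup hrel).comp iP = u := by
        ext z
        simp only [MonoidHom.comp_apply, hiP]
        have h3 : ∀ y, PresentedGroup.toGroup hrel (PresentedGroup.mk (subW w '' R) y) =
            FreeGroup.lift f y := fun y => rfl
        rw [h3]
        have := DFunLike.congr_fun hfs (FreeGroup.of z)
        simp only [MonoidHom.comp_apply] at this
        exact this
      exact DFunLike.congr_fun this x
    · intro i x
      have : (PresentedGroup.toGroup hrel).comp (iF i) = v i := by
        rw [← hfl i]
        ext x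
        simp only [iF, MonoidHom.comp_apply, FreeGroup.map.of]
        exact (PresentedGroup.toGroup.of hrel).trans (by simp)
      exact DFunLike.congr_fun this x
  · intro K _ k l h1 h2
    ext z
    cases z with
    | inl x =>
      have := h2 x.1 (FreeGroup.of x.2)
      simp only [iF, MonoidHom.comp_apply, FreeGroup.map.of] at this
      exact this
    | inr y =>
      have := h1 (PresentedGroup.of (Sum.inr y))
      rw [hiP, mp_inr] at this
      exact this

end Pool.Agent.H19.ORS
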