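import Pool.Agent.H5.OR.Targets4
import Pool.Agent.H5.ORS.HF

/-!
# MP_e1fd52_al, board ors_modules, row QF: the theorem on the relators `v^m w^(-n)`
-/

set_option autoImplicit false

open scoped Classical

namespace Pool.Agent.H19.ORS

open ORg

theorem qf_abs (k : ℕ) (m : ℤ) (hk : 0 < k) (hm : 2 ≤ |m|) : 2 ≤ |(k : ℤ) * m| := by
  rw [abs_mul]
  have h1 : (1 : ℤ) ≤ |(k : ℤ)| := by
    rw [abs_of_nonneg (Int.natCast_nonneg k)]
    exact_mod_cast hk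
  nlinarith [abs_nonneg m]

theorem pf_QF (QB : T_QB) (QO : T_QO) : T_QF := by
  intro X Y X' Y' _ _ _ _ v w v' w' m n m' n' hv hw hv' hw' hm hn hm' hn'
  constructor
  · rintro ⟨φ⟩
    obtain ⟨k, j, X1, Z1, fX, fZ, u, θ, hk, hj, hr, hl, hθ⟩ := QB X Y v w m n hv hw
    obtain ⟨k', j', X1', Z1', fX', fZ', u', θ', hk', hj', hr', hl', hθ'⟩ :=
      QB X' Y' v' w' m' n' hv' hw'
    obtain ⟨e1⟩ := Pool.Agent.H5.ORS.or_of_eq θ _ _ (Or.inl hθ)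
    obtain ⟨e2⟩ := Pool.Agent.H5.ORS.or_of_eq θ' _ _ (Or.inl hθ')
    obtain ⟨θ1, h1⟩ := QO X1 Z1 X1' Z1' fX fZ fX' fZ' u u' (k * m) (j * n) (k' * m')
      (j' * n') (qf_abs k m hk hm) (qf_abs j n hj hn) (qf_abs k' m' hk' hm')
      (qf_abs j' n' hj' hn') hr hl hr' hl' ⟨(e1.symm.trans φ).trans e2⟩
    refine ⟨(θ.trans θ1).trans θ'.symm, ?_⟩
    have h2 : ((θ.trans θ1).trans θ'.symm) (rt v w m n) = θ'.symm (θ1 (θ (rt v w m n))) := rfl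
    rw [h2, hθ]
    rcases h1 with h1 | h1
    · left
      rw [h1, ← hθ', MulEquiv.symm_apply_apply]
    · right
      rw [h1, ← hθ', ← map_inv, MulEquiv.symm_apply_apply]
  · rintro ⟨θ, hθ⟩
    exact Pool.Agent.H5.ORS.or_of_eq θ _ _ hθ

end Pool.Agent.H19.ORS
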