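import Pool.Agent.H5.OR.Targets4

/-!
# MP_e1fd52_al, board ors_modules, row QH
-/

set_option autoImplicit false

open scoped Classical

namespace Pool.Agent.H19.ORS

open ORg

theorem tg_rel (m n : ℤ) : (tg true : TP m n) ^ m = tg false ^ n := by
  have h : PresentedGroup.mk ({relT m n} : Set (FreeGroup (Bool ⊕ Empty))) (relT m n) = 1 :=
    (QuotientGroup.eq_one_iff _).2 (Subgroup.subset_normalClosure rfl)
  have h2 : (tg true : TP m n) ^ m * (tg false ^ n)⁻¹ = 1 := by
    rw [← h]
    simp only [relT, map_mul, map_inv, map_zpow]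
    rfl
  exact mul_inv_eq_one.1 h2

theorem pf_QH : T_QH := by
  intro m n
  refine ⟨tg_rel m n, ?_, ?_⟩
  · intro H _ g h hgh
    let f0 : Bool ⊕ Empty → H := fun z => Sum.elim (fun b => cond b g h) (fun e => e.elim) z
    refine ⟨PresentedGroup.toGroup (f := f0) ?_, ?_, ?_⟩
    · intro r hr
      rw [Set.mem_singleton_iff] at hr
      subst hr
      simp only [relT, map_mul, map_inv, map_zpow, FreeGroup.lift_apply_of]
      simp only [f0, Sum.elim_inl, cond_true, cond_false]
      rw [hgh, mul_inv_cancel]
    · unfold tg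
      rw [PresentedGroup.toGroup.of]
      rfl
    · unfold tg
      rw [PresentedGroup.toGroup.of]
      rfl
  · intro H _ f f' h1 h2
    refine PresentedGroup.ext ?_
    rintro (b | e)
    · cases b
      · exact h2
      · exact h1
    · exact e.elim

end Pool.Agent.H19.ORS
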