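import Pool.Agent.H5.OR.All
import Pool.Agent.H5.OR.Targets4

/-!
# MP_e1fd52_al, board ors_modules, row QS
-/

set_option autoImplicit false

open scoped Classical

namespace Pool.Agent.H19.ORS

open ORg

theorem qs_rel (m n : ℤ) : tkA m n ^ m = tkT m n ^ n := by
  have h : PresentedGroup.mk ({relC (FreeGroup.of ()) m n} : Set (FreeGroup (Option Unit)))
      (relC (FreeGroup.of ()) m n) = 1 :=
    (QuotientGroup.eq_one_iff _).2 (Subgroup.subset_normalClosure rfl)
  have h2 : tkA m n ^ m * (tkT m n ^ n)⁻¹ = 1 := by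
    rw [← h]
    simp only [relC, FreeGroup.map.of]
    rfl
  exact mul_inv_eq_one.1 h2

theorem pf_QS (QH : T_QH) : T_QS := by
  intro m n hm hn
  obtain ⟨q1, q2, q3⟩ := QH m n
  have hm0 : m ≠ 0 := by
    rintro rfl
    simp at hm
  have hn0 : n ≠ 0 := by
    rintro rfl
    simp at hn
  refine ⟨?_, ?_⟩
  · obtain ⟨f, hf1, hf2⟩ := q2 (TK m n) (tkA m n) (tkT m n) (qs_rel m n)
    let g0 : Option Unit → TP m n := fun o => Option.elim o (tg false) (fun _ => tg true)
    have hg : ∀ r ∈ ({relC (FreeGroup.of ()) m n} : Set (FreeGroup (Option Unit))),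
        FreeGroup.lift g0 r = 1 := by
      intro r hr
      rw [Set.mem_singleton_iff] at hr
      rw [hr]
      simp only [relC, map_mul, map_inv, map_zpow, FreeGroup.map.of, FreeGroup.lift_apply_of, g0,
        Option.elim]
      rw [q1, mul_inv_cancel]
    let g : TK m n →* TP m n := PresentedGroup.toGroup hg
    have hgA : g (tkA m n) = tg true := PresentedGroup.toGroup.of hg
    have hgT : g (tkT m n) = tg false := PresentedGroup.toGroup.of hg
    have h1 : f.comp g = MonoidHom.id _ := by
      refine PresentedGroup.ext ?_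
      rintro (_ | u)
      · change f (g (tkT m n)) = tkT m n
        rw [hgT, hf2]
      · change f (g (tkA m n)) = tkA m n
        rw [hgA, hf1]
    have h2 : g.comp f = MonoidHom.id _ := by
      refine q3 _ _ _ ?_ ?_
      · change g (f (tg true)) = tg true
        rw [hf1, hgA]
      · change g (f (tg false)) = tg false
        rw [hf2, hgT]
    let e : TK m n ≃* TP m n := MonoidHom.toMulEquiv g f h1 h2
    exact All.KA.2 _ (Pool.Agent.H23.OR.KA.kk_equiv e (All.KC m n hm hn).1)
  · obtain ⟨f, hf1, hf2⟩ := q2 (Multiplicative ℤ) (Multiplicative.ofAdd n)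
      (Multiplicative.ofAdd m) (by
        rw [← ofAdd_zsmul, ← ofAdd_zsmul, smul_eq_mul, smul_eq_mul, mul_comm])
    intro i k hk h
    have h1 := congrArg f h
    rw [map_zpow, map_one] at h1
    cases i with
    | true =>
      rw [hf1, ← ofAdd_zsmul] at h1
      have h2 : k • n = 0 := h1
      rw [smul_eq_mul] at h2
      rcases mul_eq_zero.mp h2 with h3 | h3
      · exact hk h3
      · exact hn0 h3
    | false =>
      rw [hf2, ← ofAdd_zsmul] at h1
      have h2 : k • m = 0 := h1
      rw [smul_eq_mul] at h2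
      rcases mul_eq_zero.mp h2 with h3 | h3
      · exact hk h3
      · exact hm0 h3

end Pool.Agent.H19.ORS
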